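import Pool.Agent.L7h51.SD.Round

set_option autoImplicit false
set_option linter.unusedSectionVars false
set_option maxHeartbeats 4000000

/-! Sets of an exact size from vector solutions. -/

namespace Pool.Agent.L7h51.SD

open MeasureTheory ProbabilityTheory Finset Pool.Agent.L7h51.TR
open scoped RealInnerProductSpace Classical

noncomputable section

variable {E : Type*} [NormedAddCommGroup E] [InnerProductSpace ℝ E] [FiniteDimensional ℝ E]
  [MeasurableSpace E] [BorelSpace E]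

variable {V : Type} [Fintype V]

/-- rounding outside a small set -/
theorem round_off (v : V → E) (P : V → V → ℝ) (hP : ∀ x y, 0 ≤ P x y)
    (hsym : ∀ x y, P x y = P y x) (hrow : ∀ x, ∑ y, P x y = 1) (K k ε : ℝ) (hε : 0 ≤ ε)
    (hε8 : ε ≤ 1 / 8) (hK2 : 2 ≤ K) (hk0 : 0 < k) (hkK : k * K = Fintype.card V)
    (hk : ∑ x, ‖v x‖ ^ 2 = k) (hv : ∀ x, ‖v x‖ ^ 2 ≤ 1) (hpos' : ∀ x y, 0 ≤ ⟪v x, v y⟫)
    (hspr : ∀ x, ∑ y, ⟪v x, v y⟫ ≤ k * ‖v x‖ ^ 2)
    (hE : (1 - ε) * k ≤ ∑ x, ∑ y, P x y * ⟪v x, v y⟫) (U : Finset V)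
    (hU : (U.card : ℝ) ≤ k / 8) :
    ∃ B : Finset V, B.Nonempty ∧ Disjoint U B ∧
      (B.card : ℝ) ≤ 11200 * Real.exp (32 / 5 * ε * Real.log K) * k ∧
      Real.exp (-(32 / 5 * ε * Real.log K)) / 400 * B.card ≤ stay P B := by
  let w : V → E := fun x => if x ∈ U then 0 else v x
  have hw1 : ∀ x ∈ U, w x = 0 := fun x hx => if_pos hx
  have hw2 : ∀ x, x ∉ U → w x = v x := fun x hx => if_neg hx
  have hwle : ∀ x, ‖w x‖ ^ 2 ≤ ‖v x‖ ^ 2 := by
    intro x
    by_cases hx : x ∈ U
    · rw [hw1 x hx, norm_zero, zero_pow two_ne_zero]; positivity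
    · rw [hw2 x hx]
  have hin0 : ∀ x y, 0 ≤ ⟪w x, w y⟫ := by
    intro x y
    by_cases hx : x ∈ U
    · rw [hw1 x hx, inner_zero_left]
    · by_cases hy : y ∈ U
      · rw [hw1 y hy, inner_zero_right]
      · rw [hw2 x hx, hw2 y hy]; exact hpos' x y
  have hin1 : ∀ x y, ⟪w x, w y⟫ ≤ ⟪v x, v y⟫ := by
    intro x y
    by_cases hx : x ∈ U
    · rw [hw1 x hx, inner_zero_left]; exact hpos' x y
    · by_cases hy : y ∈ U
      · rw [hw1 y hy, inner_zero_right]; exact hpos' x y
      · rw [hw2 x hx, hw2 y hy]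
  have hW := good_weight v P hP hsym hrow k ε hε hk hE
  have hcol : ∀ y, ∑ x, P x y = 1 := by
    intro y
    rw [← hrow y]
    exact Finset.sum_congr rfl fun x _ => hsym x y
  have hlost : ∑ x, ∑ y, P x y * (2 * ((if x ∈ U then (1 : ℝ) else 0) +
      (if y ∈ U then (1 : ℝ) else 0))) = 4 * U.card := by
    have h1 : ∑ x, ∑ y, P x y * (if x ∈ U then (1 : ℝ) else 0) = U.card := by
      have : ∀ x, ∑ y, P x y * (if x ∈ U then (1 : ℝ) else 0) = if x ∈ U then (1 : ℝ) else 0 := by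
        intro x
        rw [← Finset.sum_mul, hrow, one_mul]
      rw [Finset.sum_congr rfl fun x _ => this x]
      simp
    have h2 : ∑ x, ∑ y, P x y * (if y ∈ U then (1 : ℝ) else 0) = U.card := by
      rw [Finset.sum_comm]
      have : ∀ y, ∑ x, P x y * (if y ∈ U then (1 : ℝ) else 0) = if y ∈ U then (1 : ℝ) else 0 := by
        intro y
        rw [← Finset.sum_mul, hcol, one_mul]
      rw [Finset.sum_congr rfl fun x _ => this x]
      simp
    calc ∑ x, ∑ y, P x y * (2 * ((if x ∈ U then (1 : ℝ) else 0) +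
          (if y ∈ U then (1 : ℝ) else 0)))
        = 2 * ∑ x, ∑ y, P x y * (if x ∈ U then (1 : ℝ) else 0) +
          2 * ∑ x, ∑ y, P x y * (if y ∈ U then (1 : ℝ) else 0) := by
          rw [Finset.mul_sum, Finset.mul_sum, ← Finset.sum_add_distrib]
          refine Finset.sum_congr rfl fun x _ => ?_
          rw [Finset.mul_sum, Finset.mul_sum, ← Finset.sum_add_distrib]
          refine Finset.sum_congr rfl fun y _ => ?_
          ring
      _ = _ := by rw [h1, h2]; ring
  have hW' : k / 2 ≤ ∑ x, ∑ y, P x y *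
        (if (1 - 2 * ε) * ((‖w x‖ ^ 2 + ‖w y‖ ^ 2) / 2) ≤ ⟪w x, w y⟫ then
        ‖w x‖ ^ 2 + ‖w y‖ ^ 2 else 0) := by
    have hpt : ∀ x y, P x y * (if (1 - 2 * ε) * ((‖v x‖ ^ 2 + ‖v y‖ ^ 2) / 2) ≤ ⟪v x, v y⟫ then
        ‖v x‖ ^ 2 + ‖v y‖ ^ 2 else 0) ≤ P x y *
        (if (1 - 2 * ε) * ((‖w x‖ ^ 2 + ‖w y‖ ^ 2) / 2) ≤ ⟪w x, w y⟫ then
        ‖w x‖ ^ 2 + ‖w y‖ ^ 2 else 0) + P x y * (2 * ((if x ∈ U then (1 : ℝ) else 0) +
      (if y ∈ U then (1 : ℝ) else 0))) := by
      intro x y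
      rw [← mul_add]
      apply mul_le_mul_of_nonneg_left _ (hP x y)
      have h1 : (if (1 - 2 * ε) * ((‖v x‖ ^ 2 + ‖v y‖ ^ 2) / 2) ≤ ⟪v x, v y⟫ then
        ‖v x‖ ^ 2 + ‖v y‖ ^ 2 else 0) ≤ 2 := by
        have h2 := hv x
        have h3 := hv y
        split_ifs <;> linarith
      have h4 : 0 ≤ (if (1 - 2 * ε) * ((‖w x‖ ^ 2 + ‖w y‖ ^ 2) / 2) ≤ ⟪w x, w y⟫ then
        ‖w x‖ ^ 2 + ‖w y‖ ^ 2 else 0) := by
        split_ifs <;> positivity
      by_cases hx : x ∈ U
      · have h5 : (if x ∈ U then (1 : ℝ) else 0) = 1 := if_pos hx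
        have h6 : 0 ≤ (if y ∈ U then (1 : ℝ) else 0) := by split_ifs <;> norm_num
        rw [h5]
        linarith
      · by_cases hy : y ∈ U
        · have h5 : (if y ∈ U then (1 : ℝ) else 0) = 1 := if_pos hy
          have h6 : 0 ≤ (if x ∈ U then (1 : ℝ) else 0) := by split_ifs <;> norm_num
          rw [h5]
          linarith
        · rw [hw2 x hx, hw2 y hy, if_neg hx, if_neg hy]
          linarith
    have h1 : k ≤ ∑ x, ∑ y, (P x y *
        (if (1 - 2 * ε) * ((‖w x‖ ^ 2 + ‖w y‖ ^ 2) / 2) ≤ ⟪w x, w y⟫ then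
        ‖w x‖ ^ 2 + ‖w y‖ ^ 2 else 0) + P x y * (2 * ((if x ∈ U then (1 : ℝ) else 0) +
      (if y ∈ U then (1 : ℝ) else 0)))) :=
      hW.trans (Finset.sum_le_sum fun x _ => Finset.sum_le_sum fun y _ => hpt x y)
    simp_rw [Finset.sum_add_distrib] at h1
    rw [hlost] at h1
    linarith
  obtain ⟨B, hB1, hB2, hB3, hB4⟩ := round_core w P hP hrow K k ε hε hε8 hK2 hk0 hkK
    ((Finset.sum_le_sum fun x _ => hwle x).trans hk.le) (fun x => (hwle x).trans (hv x)) hin0
    (by
      intro x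
      by_cases hx : x ∈ U
      · rw [hw1 x hx]; simp
      · have h1 : ∑ y, ⟪w x, w y⟫ ≤ ∑ y, ⟪v x, v y⟫ := Finset.sum_le_sum fun y _ => hin1 x y
        rw [hw2 x hx] at h1 ⊢
        exact h1.trans (hspr x)) hW'
  refine ⟨B, hB1, ?_, hB3, hB4⟩
  rw [Finset.disjoint_left]
  intro x hxU hxB
  exact hB2 x hxB (hw1 x hxU)

lemma stay_disj {P : V → V → ℝ} (hP : ∀ x y, 0 ≤ P x y) (U W : Finset V) (h : Disjoint U W) :
    stay P U + stay P W ≤ stay P (U ∪ W) := by
  unfold stay
  rw [Finset.sum_union h]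
  apply add_le_add
  · exact Finset.sum_le_sum fun x _ => Finset.sum_le_sum_of_subset_of_nonneg
      Finset.subset_union_left fun y _ _ => hP x y
  · exact Finset.sum_le_sum fun x _ => Finset.sum_le_sum_of_subset_of_nonneg
      Finset.subset_union_right fun y _ _ => hP x y

/-- a set of at least `k/8` vertices -/
theorem big (v : V → E) (P : V → V → ℝ) (hP : ∀ x y, 0 ≤ P x y)
    (hsym : ∀ x y, P x y = P y x) (hrow : ∀ x, ∑ y, P x y = 1) (K k ε : ℝ) (hε : 0 ≤ ε)
    (hε8 : ε ≤ 1 / 8) (hK2 : 2 ≤ K) (hk0 : 0 < k) (hkK : k * K = Fintype.card V)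
    (hk : ∑ x, ‖v x‖ ^ 2 = k) (hv : ∀ x, ‖v x‖ ^ 2 ≤ 1) (hpos' : ∀ x y, 0 ≤ ⟪v x, v y⟫)
    (hspr : ∀ x, ∑ y, ⟪v x, v y⟫ ≤ k * ‖v x‖ ^ 2)
    (hE : (1 - ε) * k ≤ ∑ x, ∑ y, P x y * ⟪v x, v y⟫) :
    ∃ U : Finset V, k / 8 < U.card ∧
      (U.card : ℝ) ≤ 11201 * Real.exp (32 / 5 * ε * Real.log K) * k ∧
      Real.exp (-(32 / 5 * ε * Real.log K)) / 400 * U.card ≤ stay P U := by
  set r := Real.exp (-(32 / 5 * ε * Real.log K)) / 400 with hr
  set A := Real.exp (32 / 5 * ε * Real.log K) with hA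
  have hA1 : 1 ≤ A := by
    rw [hA, Real.one_le_exp_iff]
    have : 0 < Real.log K := Real.log_pos (by linarith)
    positivity
  have hne : (univ.filter fun U : Finset V => (U.card : ℝ) ≤ 11201 * A * k ∧
      r * U.card ≤ stay P U).Nonempty := by
    refine ⟨∅, ?_⟩
    simp only [Finset.mem_filter, Finset.mem_univ, true_and, Finset.card_empty, Nat.cast_zero,
      mul_zero]
    exact ⟨by positivity, stay_nonneg hP _⟩
  obtain ⟨U, hU, hmax⟩ := Finset.exists_max_image _ (fun U : Finset V => U.card) hne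
  simp only [Finset.mem_filter, Finset.mem_univ, true_and] at hU hmax
  refine ⟨U, ?_, hU.1, hU.2⟩
  by_contra hcon
  push Not at hcon
  obtain ⟨B, hB1, hB2, hB3, hB4⟩ := round_off v P hP hsym hrow K k ε hε hε8 hK2 hk0 hkK hk hv
    hpos' hspr hE U hcon
  have h1 : (U ∪ B).card = U.card + B.card := Finset.card_union_of_disjoint hB2
  have h2 := hmax (U ∪ B) (by
    constructor
    · rw [h1]; push_cast
      have : k / 8 ≤ A * k := by nlinarith
      linarith
    · refine le_trans ?_ (stay_disj hP U B hB2)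
      rw [h1]; push_cast
      rw [mul_add]
      exact add_le_add hU.2 hB4)
  rw [h1] at h2
  have := hB1.card_pos
  omega

/-- removing vertices -/
lemma subsample (P : V → V → ℝ) (hP : ∀ x y, 0 ≤ P x y) (hsym : ∀ x y, P x y = P y x)
    (hloop : ∀ x, P x x = 0) (k : ℕ) (hk : 1 ≤ k) :
    ∀ (s : ℕ) (U : Finset V), U.card = s → k ≤ s → ∃ S : Finset V, S.card = k ∧
      stay P U * (k * (k - 1)) ≤ stay P S * (s * (s - 1)) := by
  intro s
  induction s with
  | zero => intro U _ h; omega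
  | succ s ih =>
    intro U hU hks
    rcases Nat.lt_or_ge s k with h | h
    · have hs : s + 1 = k := by omega
      refine ⟨U, by omega, ?_⟩
      rw [← hs]
    · -- remove a vertex
      have hs1 : 1 ≤ s := by omega
      have hrem : ∀ x ∈ U, stay P (U.erase x) = stay P U - 2 * ∑ y ∈ U, P x y := by
        intro x hx
        have h1 : stay P U = ∑ y ∈ U, P x y + ∑ z ∈ U.erase x, ∑ y ∈ U, P z y := by
          unfold stay
          rw [← Finset.add_sum_erase U _ hx]
        have h2 : ∑ z ∈ U.erase x, ∑ y ∈ U, P z y = ∑ z ∈ U.erase x, P z x + stay P (U.erase x) := by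
          unfold stay
          rw [← Finset.sum_add_distrib]
          refine Finset.sum_congr rfl fun z _ => ?_
          rw [← Finset.add_sum_erase U _ hx]
        have h3 : ∑ z ∈ U.erase x, P z x = ∑ y ∈ U, P x y := by
          rw [← Finset.add_sum_erase U (fun y => P x y) hx, hloop, zero_add]
          exact Finset.sum_congr rfl fun z _ => hsym z x
        rw [h1, h2, h3]; ring
      have hUne : U.Nonempty := by rw [← Finset.card_pos]; omega
      have hex : ∃ x ∈ U, stay P U * (s + 1 - 2) ≤ stay P (U.erase x) * (s + 1) := by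
        by_contra hcon
        push Not at hcon
        have h1 : ∑ x ∈ U, stay P (U.erase x) * (s + 1) < ∑ x ∈ U, stay P U * ((s : ℝ) + 1 - 2) :=
          Finset.sum_lt_sum_of_nonempty hUne hcon
        rw [← Finset.sum_mul, Finset.sum_congr rfl hrem, Finset.sum_sub_distrib, ← Finset.mul_sum,
          Finset.sum_const, Finset.sum_const, hU, nsmul_eq_mul, nsmul_eq_mul] at h1
        have h2 : ∑ x ∈ U, ∑ y ∈ U, P x y = stay P U := rfl
        rw [h2] at h1
        push_cast at h1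
        nlinarith
      obtain ⟨x, hx, hxle⟩ := hex
      obtain ⟨S, hS, hSle⟩ := ih (U.erase x) (by rw [Finset.card_erase_of_mem hx]; omega) h
      refine ⟨S, hS, ?_⟩
      have hsr : (1 : ℝ) ≤ s := by exact_mod_cast hs1
      push_cast
      have h3 : stay P U * ((s : ℝ) - 1) * (k * (k - 1)) ≤
          stay P S * ((s + 1) * (s + 1 - 1)) * (s - 1) := by
        have hkk : (0 : ℝ) ≤ k * (k - 1) := by
          have : (1 : ℝ) ≤ k := by exact_mod_cast hk
          nlinarith
        calc stay P U * ((s : ℝ) - 1) * (k * (k - 1))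
            = (stay P U * (s + 1 - 2)) * (k * (k - 1)) := by ring
          _ ≤ (stay P (U.erase x) * (s + 1)) * (k * (k - 1)) :=
              mul_le_mul_of_nonneg_right hxle hkk
          _ = (stay P (U.erase x) * (k * (k - 1))) * (s + 1) := by ring
          _ ≤ (stay P S * (s * (s - 1))) * (s + 1) := by
              apply mul_le_mul_of_nonneg_right hSle; positivity
          _ = _ := by ring
      rcases Nat.lt_or_ge 1 s with h4 | h4
      · have h5 : (0 : ℝ) < s - 1 := by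
          have : (1 : ℝ) < s := by exact_mod_cast h4
          linarith
        have h6 : (stay P U * (k * (k - 1))) * ((s : ℝ) - 1) ≤
            (stay P S * ((s + 1) * (s + 1 - 1))) * (s - 1) := by linarith
        exact le_of_mul_le_mul_right h6 h5
      · have h5 : k = 1 := by omega
        subst h5
        have : 0 ≤ stay P S := stay_nonneg hP S
        simp only [Nat.cast_one, sub_self, mul_zero]
        have : (0 : ℝ) ≤ (s + 1) * (s + 1 - 1) := by
          have : (0 : ℝ) ≤ s := by positivity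
          nlinarith
        positivity

end

end Pool.Agent.L7h51.SD
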