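import Pool.Agent.L7h51.SD.Exact

set_option autoImplicit false
set_option linter.unusedSectionVars false
set_option maxHeartbeats 4000000

/-! The semidefinite program for small-set expansion. -/

namespace Pool.Agent.L7h51.SD

open MeasureTheory ProbabilityTheory Finset Pool.Agent.L7h51.TR
open scoped RealInnerProductSpace Classical

noncomputable section

variable {V : Type} [Fintype V]

/-- The semidefinite program of `SSE(η, δ)` has a solution: there are vectors `v_x` with
`∑ |v_x|² = δ n`, `|v_x| ≤ 1`, `⟨v_x, v_y⟩ ≥ 0`, `∑_y ⟨v_x, v_y⟩ ≤ δ n |v_x|²` for every `x`, and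
`(1/d) ∑_x ∑_{y ~ x} ⟨v_x, v_y⟩ ≥ (1 - η) δ n`. -/
def SdpFeasible (Γ : SimpleGraph V) (d : ℕ) (eta del : ℝ) : Prop :=
  ∃ (D : ℕ) (v : V → EuclideanSpace ℝ (Fin D)),
    (∑ x, ‖v x‖ ^ 2 = del * Fintype.card V) ∧ (∀ x, ‖v x‖ ^ 2 ≤ 1) ∧ (∀ x y, 0 ≤ ⟪v x, v y⟫) ∧
    (∀ x, ∑ y, ⟪v x, v y⟫ ≤ del * Fintype.card V * ‖v x‖ ^ 2) ∧
    (1 - eta) * (del * Fintype.card V) ≤ (∑ x, ∑ y ∈ univ.filter (Γ.Adj x), ⟪v x, v y⟫) / d

lemma energy_eq {D : ℕ} (Γ : SimpleGraph V) (d : ℕ) (v : V → EuclideanSpace ℝ (Fin D)) :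
    (∑ x, ∑ y ∈ univ.filter (Γ.Adj x), ⟪v x, v y⟫) / d = ∑ x, ∑ y, Pw Γ d x y * ⟪v x, v y⟫ := by
  rw [Finset.sum_div]
  refine Finset.sum_congr rfl fun x _ => ?_
  rw [Finset.sum_filter, Finset.sum_div]
  refine Finset.sum_congr rfl fun y _ => ?_
  unfold Pw
  split_ifs <;> ring

lemma Pw_loop (Γ : SimpleGraph V) (d : ℕ) (x : V) : Pw Γ d x x = 0 := by
  unfold Pw; simp

lemma stay_univ (Γ : SimpleGraph V) (d : ℕ) (hd : 1 ≤ d) (hΓ : Γ.IsRegularOfDegree d) :
    stay (Pw Γ d) univ = Fintype.card V := by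
  unfold stay
  rw [Finset.sum_congr rfl fun x _ => Pw_row Γ d hd hΓ x]
  simp

lemma exp_of_stay (Γ : SimpleGraph V) (d : ℕ) (hd : 1 ≤ d) (hΓ : Γ.IsRegularOfDegree d)
    (S : Finset V) (hS : S.Nonempty) (r : ℝ) (h : r * S.card ≤ stay (Pw Γ d) S) :
    expansion Γ d S ≤ 1 - r := by
  have hS0 : (0 : ℝ) < S.card := by exact_mod_cast hS.card_pos
  rw [expansion_eq Γ d hd hΓ S hS]
  have : r ≤ (∑ x ∈ S, ∑ y ∈ S, Pw Γ d x y) / S.card := by
    rw [le_div_iff₀ hS0]; exact h
  linarith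

/-- the yes instances have a solution -/
theorem yes_feasible (Γ : SimpleGraph V) (d : ℕ) (hd : 1 ≤ d) (hΓ : Γ.IsRegularOfDegree d)
    (eta del : ℝ) (h : SseYes Γ d eta del) : SdpFeasible Γ d eta del := by
  obtain ⟨A, hA, hAc, hle⟩ := h
  have hA0 : (0 : ℝ) < A.card := by exact_mod_cast hA.card_pos
  let w : V → ℝ := fun x => if x ∈ A then 1 else 0
  let v : V → EuclideanSpace ℝ (Fin 1) := fun x => WithLp.toLp 2 (fun _ => w x)
  have hin : ∀ x y, ⟪v x, v y⟫ = w x * w y := by
    intro x y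
    simp only [v, PiLp.inner_apply]
    simp [mul_comm]
  have hno : ∀ x, ‖v x‖ ^ 2 = w x := by
    intro x
    rw [← real_inner_self_eq_norm_sq, hin]
    simp only [w]
    split_ifs <;> norm_num
  have hw0 : ∀ x, 0 ≤ w x := by
    intro x; simp only [w]; split_ifs <;> norm_num
  have hw1 : ∀ x, w x ≤ 1 := by
    intro x; simp only [w]; split_ifs <;> norm_num
  have hsum : ∑ x, w x = A.card := by
    simp only [w]; simp
  refine ⟨1, v, ?_, ?_, ?_, ?_, ?_⟩
  · rw [Finset.sum_congr rfl fun x _ => hno x, hsum, hAc]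
  · intro x; rw [hno]; exact hw1 x
  · intro x y; rw [hin]; exact mul_nonneg (hw0 x) (hw0 y)
  · intro x
    rw [hno, Finset.sum_congr rfl fun y _ => hin x y, ← Finset.mul_sum, hsum, hAc, mul_comm]
  · rw [energy_eq, ← hAc]
    have h1 : ∑ x, ∑ y, Pw Γ d x y * ⟪v x, v y⟫ = stay (Pw Γ d) A := by
      unfold stay
      rw [← Finset.sum_subset (Finset.subset_univ A)]
      · refine Finset.sum_congr rfl fun x hx => ?_
        rw [← Finset.sum_subset (Finset.subset_univ A)]
        · refine Finset.sum_congr rfl fun y hy => ?_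
          rw [hin]; simp only [w]; rw [if_pos hx, if_pos hy]; ring
        · intro y _ hy
          rw [hin]; simp only [w]; rw [if_neg hy]; ring
      · intro x _ hx
        refine Finset.sum_eq_zero fun y _ => ?_
        rw [hin]; simp only [w]; rw [if_neg hx]; ring
    rw [h1]
    rw [expansion_eq Γ d hd hΓ A hA] at hle
    have h2 : 1 - eta ≤ (∑ x ∈ A, ∑ y ∈ A, Pw Γ d x y) / A.card := by linarith
    rw [le_div_iff₀ hA0] at h2
    exact h2

lemma exp_rpow (c eta del : ℝ) (hdel : 0 < del) :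
    Real.exp (c * eta * Real.log (1 / del)) = del ^ (-(c * eta)) := by
  rw [Real.rpow_def_of_pos hdel, one_div, Real.log_inv]
  congr 1; ring

/-- one small set -/
theorem small_set (Γ : SimpleGraph V) (d : ℕ) (hd : 1 ≤ d) (hΓ : Γ.IsRegularOfDegree d)
    (hV : Nonempty V) (eta del : ℝ) (heta : 0 ≤ eta) (hdel : 0 < del) (hdel1 : del ≤ 1)
    (h : SdpFeasible Γ d eta del) :
    ∃ B : Finset V, B.Nonempty ∧ (B.card : ℝ) ≤ 11200 * del ^ (1 - 8 * eta) * Fintype.card V ∧
      expansion Γ d B ≤ 1 - del ^ (8 * eta) / 400 := by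
  have hP := Pw_nonneg Γ d
  have hsym := Pw_symm Γ d
  have hrow := Pw_row Γ d hd hΓ
  have hn : 0 < Fintype.card V := Fintype.card_pos
  have hn0 : (0 : ℝ) < Fintype.card V := by exact_mod_cast hn
  have htriv : 1 / 2 ≤ del ^ (1 - 8 * eta) → ∃ B : Finset V, B.Nonempty ∧
      (B.card : ℝ) ≤ 11200 * del ^ (1 - 8 * eta) * Fintype.card V ∧
      expansion Γ d B ≤ 1 - del ^ (8 * eta) / 400 := by
    intro h1
    refine ⟨univ, Finset.univ_nonempty, ?_, ?_⟩
    · rw [Finset.card_univ]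
      nlinarith
    · apply exp_of_stay Γ d hd hΓ univ Finset.univ_nonempty
      rw [stay_univ Γ d hd hΓ, Finset.card_univ]
      have h2 : del ^ (8 * eta) ≤ 1 := Real.rpow_le_one hdel.le hdel1 (by linarith)
      nlinarith
  by_cases he : 1 / 8 < eta
  · apply htriv
    have := Real.one_le_rpow_of_pos_of_le_one_of_nonpos hdel hdel1 (show 1 - 8 * eta ≤ 0 by linarith)
    linarith
  · push Not at he
    by_cases hd2 : 1 / 2 < del
    · apply htriv
      have : del ^ (1 : ℝ) ≤ del ^ (1 - 8 * eta) :=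
        Real.rpow_le_rpow_of_exponent_ge hdel hdel1 (by linarith)
      rw [Real.rpow_one] at this
      linarith
    · push Not at hd2
      obtain ⟨D, v, h1, h2, h3, h4, h5⟩ := h
      rw [energy_eq] at h5
      obtain ⟨B, hB1, _, hB3, hB4⟩ := round_off v (Pw Γ d) hP hsym hrow (1 / del)
        (del * Fintype.card V) eta heta he (by rw [le_div_iff₀ hdel]; linarith) (by positivity)
        (by field_simp) h1 h2 h3 h4 h5 ∅ (by simp; positivity)
      rw [exp_rpow (32 / 5) eta del hdel] at hB3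
      rw [show -(32 / 5 * eta * Real.log (1 / del)) = (-(32 / 5)) * eta * Real.log (1 / del) by ring,
        exp_rpow (-(32 / 5)) eta del hdel] at hB4
      refine ⟨B, hB1, ?_, ?_⟩
      · refine hB3.trans ?_
        have h6 : del ^ (-(32 / 5 * eta)) ≤ del ^ (-(8 * eta)) :=
          Real.rpow_le_rpow_of_exponent_ge hdel hdel1 (by linarith)
        have h7 : del ^ (1 - 8 * eta) = del ^ (-(8 * eta)) * del := by
          rw [show 1 - 8 * eta = -(8 * eta) + 1 by ring, Real.rpow_add hdel, Real.rpow_one]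
        rw [h7]
        have h8 : 0 ≤ del * Fintype.card V := by positivity
        nlinarith [mul_le_mul_of_nonneg_right h6 h8]
      · apply exp_of_stay Γ d hd hΓ B hB1
        refine le_trans ?_ hB4
        have h6 : del ^ (8 * eta) ≤ del ^ (-(-(32 / 5) * eta)) :=
          Real.rpow_le_rpow_of_exponent_ge hdel hdel1 (by linarith)
        apply mul_le_mul_of_nonneg_right _ (Nat.cast_nonneg _)
        linarith

/-- a set of exact size -/
theorem exact_set (Γ : SimpleGraph V) (d : ℕ) (hd : 1 ≤ d) (hΓ : Γ.IsRegularOfDegree d)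
    (eta del : ℝ) (heta : 0 ≤ eta) (heta1 : eta < 1) (k : ℕ) (hk : 1 ≤ k)
    (hkd : (k : ℝ) = del * Fintype.card V) (hkn : k ≤ Fintype.card V)
    (h : SdpFeasible Γ d eta del) :
    ∃ S : Finset V, S.card = k ∧ expansion Γ d S ≤ 1 - del ^ (13 * eta) / 10 ^ 7 := by
  have hP := Pw_nonneg Γ d
  have hsym := Pw_symm Γ d
  have hrow := Pw_row Γ d hd hΓ
  have hn : 0 < Fintype.card V := by omega
  have hn0 : (0 : ℝ) < Fintype.card V := by exact_mod_cast hn
  have hk0 : (0 : ℝ) < k := by exact_mod_cast hk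
  have hdel : 0 < del := by
    by_contra hcon
    push Not at hcon
    nlinarith
  have hdel1 : del ≤ 1 := by
    have h1 : (k : ℝ) ≤ Fintype.card V := by exact_mod_cast hkn
    rw [hkd] at h1
    by_contra hcon
    push Not at hcon
    nlinarith
  obtain ⟨D, v, h1, h2, h3, h4, h5⟩ := h
  rw [energy_eq] at h5
  rw [← hkd] at h1 h4 h5
  -- `k ≥ 2`
  have hk2 : 2 ≤ k := by
    by_contra hcon
    have hk1 : k = 1 := by omega
    subst hk1
    have h6 : ∀ x y, x ≠ y → ⟪v x, v y⟫ = 0 := by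
      intro x y hxy
      have h7 := h4 x
      rw [← Finset.add_sum_erase univ _ (Finset.mem_univ x), real_inner_self_eq_norm_sq,
        Nat.cast_one, one_mul] at h7
      have h8 : ⟪v x, v y⟫ ≤ ∑ z ∈ univ.erase x, ⟪v x, v z⟫ :=
        Finset.single_le_sum (f := fun z => ⟪v x, v z⟫) (fun z _ => h3 x z)
          (Finset.mem_erase.2 ⟨hxy.symm, Finset.mem_univ y⟩)
      have h9 := h3 x y
      linarith
    have h7 : ∑ x, ∑ y, Pw Γ d x y * ⟪v x, v y⟫ = 0 := by
      refine Finset.sum_eq_zero fun x _ => Finset.sum_eq_zero fun y _ => ?_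
      by_cases hxy : x = y
      · rw [hxy, Pw_loop, zero_mul]
      · rw [h6 x y hxy, mul_zero]
    rw [h7] at h5
    push_cast at h5
    linarith
  have hk2r : (2 : ℝ) ≤ k := by exact_mod_cast hk2
  have hfin : ∀ S : Finset V, S.card = k → del ^ (13 * eta) / 10 ^ 7 * k ≤ stay (Pw Γ d) S →
      ∃ S : Finset V, S.card = k ∧ expansion Γ d S ≤ 1 - del ^ (13 * eta) / 10 ^ 7 := by
    intro S hS h6
    refine ⟨S, hS, exp_of_stay Γ d hd hΓ S ?_ _ (by rw [hS]; exact h6)⟩
    rw [← Finset.card_pos]; omega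
  have hone : del ^ (13 * eta) ≤ 1 := Real.rpow_le_one hdel.le hdel1 (by linarith)
  have htriv : del ^ (13 * eta) / 10 ^ 7 ≤ del / 2 →
      ∃ S : Finset V, S.card = k ∧ expansion Γ d S ≤ 1 - del ^ (13 * eta) / 10 ^ 7 := by
    intro h6
    obtain ⟨S, hS, hSle⟩ := subsample (Pw Γ d) hP hsym (Pw_loop Γ d) k hk (Fintype.card V) univ
      Finset.card_univ hkn
    rw [stay_univ Γ d hd hΓ] at hSle
    apply hfin S hS
    have h7 : (k : ℝ) * (k - 1) ≤ stay (Pw Γ d) S * (Fintype.card V - 1) := by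
      have h8 : ((k : ℝ) * (k - 1)) * Fintype.card V ≤
          (stay (Pw Γ d) S * (Fintype.card V - 1)) * Fintype.card V := by linarith
      exact le_of_mul_le_mul_right h8 hn0
    have h8 := stay_nonneg hP S
    have h9 : (k : ℝ) * (k - 1) ≤ stay (Pw Γ d) S * Fintype.card V := by nlinarith
    have h10 : (k : ℝ) * (k / 2) ≤ stay (Pw Γ d) S * Fintype.card V := by nlinarith
    have h11 : (del / 2 * k) * Fintype.card V ≤ stay (Pw Γ d) S * Fintype.card V := by
      refine le_trans (le_of_eq ?_) h10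
      have : (k : ℝ) / 2 = del * Fintype.card V / 2 := by rw [hkd]
      rw [this]; ring
    have h12 := le_of_mul_le_mul_right h11 hn0
    refine le_trans ?_ h12
    exact mul_le_mul_of_nonneg_right h6 hk0.le
  by_cases he : 1 / 8 < eta
  · apply htriv
    have h6 : del ^ (13 * eta) ≤ del ^ (1 : ℝ) :=
      Real.rpow_le_rpow_of_exponent_ge hdel hdel1 (by linarith)
    rw [Real.rpow_one] at h6
    have : del ^ (13 * eta) / 10 ^ 7 ≤ del / 10 ^ 7 := by
      apply div_le_div_of_nonneg_right h6 (by norm_num)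
    linarith
  push Not at he
  by_cases hd2 : 1 / 2 < del
  · apply htriv
    have : del ^ (13 * eta) / 10 ^ 7 ≤ 1 / 10 ^ 7 := by
      apply div_le_div_of_nonneg_right hone (by norm_num)
    linarith
  push Not at hd2
  obtain ⟨U, hU1, hU2, hU3⟩ := big v (Pw Γ d) hP hsym hrow (1 / del) k eta heta he
    (by rw [le_div_iff₀ hdel]; linarith) hk0 (by rw [hkd]; field_simp) h1 h2 h3 h4 h5
  rw [exp_rpow (32 / 5) eta del hdel] at hU2
  rw [show -(32 / 5 * eta * Real.log (1 / del)) = (-(32 / 5)) * eta * Real.log (1 / del) by ring,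
    exp_rpow (-(32 / 5)) eta del hdel] at hU3
  set a := del ^ (-(-(32 / 5) * eta)) with ha
  have ha0 : 0 < a := Real.rpow_pos_of_pos hdel _
  have ha1 : a ≤ 1 := Real.rpow_le_one hdel.le hdel1 (by linarith)
  have haa : a * del ^ (-(32 / 5 * eta)) = 1 := by
    rw [ha, ← Real.rpow_add hdel]
    norm_num
  have h13 : del ^ (13 * eta) ≤ a ^ 2 := by
    rw [pow_two, ha, ← Real.rpow_add hdel]
    exact Real.rpow_le_rpow_of_exponent_ge hdel hdel1 (by linarith)
  have hUpos : (0 : ℝ) < U.card := lt_trans (by positivity) hU1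
  by_cases hUk : U.card < k
  · obtain ⟨S, hUS, hS⟩ := Finset.exists_superset_card_eq hUk.le hkn
    apply hfin S hS
    refine le_trans ?_ (stay_mono hP hUS)
    refine le_trans ?_ hU3
    have h6 : a ^ 2 ≤ a := by nlinarith
    have h7 : del ^ (13 * eta) / 10 ^ 7 * k ≤ a / 10 ^ 7 * k := by
      apply mul_le_mul_of_nonneg_right _ hk0.le
      apply div_le_div_of_nonneg_right _ (by norm_num)
      linarith
    refine h7.trans ?_
    have h8 : a / 400 * (k / 8) ≤ a / 400 * U.card := mul_le_mul_of_nonneg_left hU1.le (by positivity)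
    refine le_trans ?_ h8
    have : 0 < a * k := by positivity
    linarith
  · push Not at hUk
    obtain ⟨S, hS, hSle⟩ := subsample (Pw Γ d) hP hsym (Pw_loop Γ d) k hk U.card U rfl hUk
    apply hfin S hS
    have hU2' : (2 : ℝ) ≤ U.card := by
      have : (k : ℝ) ≤ U.card := by exact_mod_cast hUk
      linarith
    have hst := stay_nonneg hP S
    have h6 : (a / 400 * U.card) * (k * (k - 1)) ≤ stay (Pw Γ d) S * (U.card * (U.card - 1)) := by
      refine le_trans ?_ hSle
      apply mul_le_mul_of_nonneg_right hU3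
      nlinarith
    have h7 : a / 400 * (k * (k - 1)) ≤ stay (Pw Γ d) S * (U.card - 1) := by
      have h8 : (a / 400 * (k * (k - 1))) * U.card ≤ (stay (Pw Γ d) S * (U.card - 1)) * U.card := by
        linarith
      exact le_of_mul_le_mul_right h8 hUpos
    have h8 : a / 400 * (k * (k / 2)) ≤ stay (Pw Γ d) S * U.card := by
      have h9 : a / 400 * (k * (k / 2)) ≤ a / 400 * (k * (k - 1)) := by
        apply mul_le_mul_of_nonneg_left _ (by positivity)
        nlinarith
      nlinarith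
    have h9 : a / 400 * (k * (k / 2)) ≤ stay (Pw Γ d) S * (11201 * del ^ (-(32 / 5 * eta)) * k) :=
      h8.trans (mul_le_mul_of_nonneg_left hU2 hst)
    have h10 : a * (a / 400 * (k * (k / 2))) ≤
        a * (stay (Pw Γ d) S * (11201 * del ^ (-(32 / 5 * eta)) * k)) :=
      mul_le_mul_of_nonneg_left h9 ha0.le
    have h11 : a * (stay (Pw Γ d) S * (11201 * del ^ (-(32 / 5 * eta)) * k)) =
        11201 * (stay (Pw Γ d) S * k) := by
      calc a * (stay (Pw Γ d) S * (11201 * del ^ (-(32 / 5 * eta)) * k))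
          = (a * del ^ (-(32 / 5 * eta))) * (11201 * (stay (Pw Γ d) S * k)) := by ring
        _ = _ := by rw [haa, one_mul]
    rw [h11] at h10
    have h12 : (a ^ 2 / 800 * k) * k ≤ (11201 * stay (Pw Γ d) S) * k := by
      refine le_trans (le_of_eq ?_) (h10.trans (le_of_eq ?_)) <;> ring
    have h14 := le_of_mul_le_mul_right h12 hk0
    have h15 : del ^ (13 * eta) / 10 ^ 7 * k ≤ a ^ 2 / 10 ^ 7 * k := by
      apply mul_le_mul_of_nonneg_right _ hk0.le
      exact div_le_div_of_nonneg_right h13 (by norm_num)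
    refine h15.trans ?_
    have : 0 < a ^ 2 * k := by positivity
    linarith

end

end Pool.Agent.L7h51.SD
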