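import Pool.Agent.L7h51.TR.Pad

set_option autoImplicit false
set_option linter.unusedSectionVars false
set_option maxHeartbeats 4000000

/-! Rounding of solutions of the semidefinite program for small-set expansion. -/

namespace Pool.Agent.L7h51.SD

open MeasureTheory ProbabilityTheory Finset Pool.Agent.L7h51.TR
open scoped RealInnerProductSpace Classical

noncomputable section

variable {E : Type*} [NormedAddCommGroup E] [InnerProductSpace ℝ E] [FiniteDimensional ℝ E]
  [MeasurableSpace E] [BorelSpace E]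

variable {V : Type} [Fintype V]

/-- upper bound: with `t² = 4 log K`, linear in the inner product -/
lemma up' (K : ℝ) (hK : 2 ≤ K) (v w : E) (hv : v ≠ 0) (hw : w ≠ 0) (hvw : 0 ≤ ⟪v, w⟫) :
    (stdGaussian E).real (Gs v (Real.sqrt (4 * Real.log K)) ∩ Gs w (Real.sqrt (4 * Real.log K))) ≤
      Qt (Real.sqrt (4 * Real.log K)) * (4 * (⟪v, w⟫ / (‖v‖ * ‖w‖)) + 24 / K) := by
  set t := Real.sqrt (4 * Real.log K) with ht
  have hn : 0 < ‖v‖ := norm_pos_iff.2 hv
  have hm : 0 < ‖w‖ := norm_pos_iff.2 hw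
  have hlog : 0 < Real.log K := Real.log_pos (by linarith)
  have ht2 : t ^ 2 = 4 * Real.log K := Real.sq_sqrt (by positivity)
  have ht0 : 0 ≤ t := Real.sqrt_nonneg _
  have hQ := Qt_nonneg t
  set ρ := ⟪(‖v‖⁻¹ • v), (‖w‖⁻¹ • w)⟫ with hρ
  have hρ2 : ⟪v, w⟫ / (‖v‖ * ‖w‖) = ρ := by
    rw [hρ, real_inner_smul_left, real_inner_smul_right]
    field_simp
  have hρ0 : 0 ≤ ρ := by rw [← hρ2]; positivity
  rw [hρ2]
  by_cases h : ρ ≤ 1 / 4
  · have h1 := pair_upper (‖v‖⁻¹ • v) (‖w‖⁻¹ • w) (norm_dir v hv) (norm_dir w hw) h t ht0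
    rw [← Gs_eq v hv, ← Gs_eq w hw] at h1
    have hlog2 : 0.6931471803 < Real.log 2 := Real.log_two_gt_d9
    have hlogK : Real.log 2 ≤ Real.log K := Real.log_le_log (by norm_num) hK
    have ht1 : 1 ≤ t := by
      rw [ht, Real.le_sqrt' (by norm_num)]
      linarith
    have h2 := Qt_lower2 t ht1
    have h3 : t ≤ 2 * Real.exp (t ^ 2 / 20) := by
      have h4 := Real.quadratic_le_exp_of_nonneg (show (0 : ℝ) ≤ t ^ 2 / 20 by positivity)
      nlinarith [sq_nonneg (t - 13 / 4), sq_nonneg (t ^ 2 - (13 / 4) ^ 2), sq_nonneg (t * (t - 13 / 4))]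
    have h5 : Real.exp (-(4 / 5) * t ^ 2) ≤ Qt t * (24 / K) := by
      have h6 : Real.exp (-t ^ 2 / 2) / (12 * t) * (24 / K) ≤ Qt t * (24 / K) :=
        mul_le_mul_of_nonneg_right h2 (by positivity)
      refine le_trans ?_ h6
      have h7 : K = Real.exp (t ^ 2 / 4) := by
        rw [ht2, mul_div_cancel_left₀ _ (by norm_num : (4 : ℝ) ≠ 0), Real.exp_log (by linarith)]
      have h8 : Real.exp (-t ^ 2 / 2) / (12 * t) * (24 / K) = 2 * Real.exp (-t ^ 2 / 2) / (t * K) := by
        have : t ≠ 0 := by linarith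
        field_simp
        ring
      rw [h8, h7, le_div_iff₀ (by positivity)]
      calc Real.exp (-(4 / 5) * t ^ 2) * (t * Real.exp (t ^ 2 / 4))
          ≤ Real.exp (-(4 / 5) * t ^ 2) * ((2 * Real.exp (t ^ 2 / 20)) * Real.exp (t ^ 2 / 4)) := by
            apply mul_le_mul_of_nonneg_left _ (Real.exp_pos _).le
            exact mul_le_mul_of_nonneg_right h3 (Real.exp_pos _).le
        _ = 2 * Real.exp (-(4 / 5) * t ^ 2 + t ^ 2 / 20 + t ^ 2 / 4) := by
            rw [Real.exp_add, Real.exp_add]; ring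
        _ = 2 * Real.exp (-t ^ 2 / 2) := by
            congr 2; ring
    refine h1.trans (h5.trans ?_)
    apply mul_le_mul_of_nonneg_left _ hQ
    linarith
  · push Not at h
    have h1 : (stdGaussian E).real (Gs v t ∩ Gs w t) ≤ Qt t := by
      rw [← Gs_self v hv t]
      exact measureReal_mono Set.inter_subset_left (measure_ne_top _ _)
    refine h1.trans ?_
    have h2 : 1 ≤ 4 * ρ + 24 / K := by
      have : 0 ≤ 24 / K := by positivity
      linarith
    nlinarith

/-- **Rounding of a vector solution.** -/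
theorem round_core (v : V → E) (P : V → V → ℝ) (hP : ∀ x y, 0 ≤ P x y)
    (hrow : ∀ x, ∑ y, P x y = 1) (K k ε : ℝ) (hε : 0 ≤ ε)
    (hε8 : ε ≤ 1 / 8) (hK2 : 2 ≤ K) (hk0 : 0 < k) (hkK : k * K = Fintype.card V)
    (hm : ∑ x, ‖v x‖ ^ 2 ≤ k) (hv : ∀ x, ‖v x‖ ^ 2 ≤ 1) (hpos' : ∀ x y, 0 ≤ ⟪v x, v y⟫)
    (hspr : ∀ x, ∑ y, ⟪v x, v y⟫ ≤ k * ‖v x‖ ^ 2)
    (hW : k / 2 ≤ ∑ x, ∑ y, P x y *
        (if (1 - 2 * ε) * ((‖v x‖ ^ 2 + ‖v y‖ ^ 2) / 2) ≤ ⟪v x, v y⟫ then
        ‖v x‖ ^ 2 + ‖v y‖ ^ 2 else 0)) :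
    ∃ B : Finset V, B.Nonempty ∧ (∀ x ∈ B, v x ≠ 0) ∧
      (B.card : ℝ) ≤ 11200 * Real.exp (32 / 5 * ε * Real.log K) * k ∧
      Real.exp (-(32 / 5 * ε * Real.log K)) / 400 * B.card ≤ ∑ x ∈ B, ∑ y ∈ B, P x y := by
  set t := Real.sqrt (4 * Real.log K) with ht
  have hlog : 0 < Real.log K := Real.log_pos (by linarith)
  have ht2 : t ^ 2 = 4 * Real.log K := Real.sq_sqrt (by positivity)
  have ht0 : 0 ≤ t := Real.sqrt_nonneg _
  have hQ := Qt_pos t ht0
  have hK0 : 0 < K := by linarith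
  set a := Real.exp (-(32 / 5 * ε * Real.log K)) with ha
  have ha0 : 0 < a := Real.exp_pos _
  have hexp : Real.exp (-(8 / 5 * ε * t ^ 2)) = a := by
    rw [ht2, ha]; congr 1; ring
  set R := 9 / 448 * a with hR
  set l := R / (224 * k) with hl
  have hl0 : 0 < l := by positivity
  let p : V → V → ℝ := fun x y => (stdGaussian E).real (Gs (v x) t ∩ Gs (v y) t) *
    min (‖v x‖ ^ 2) (‖v y‖ ^ 2)
  have hp0 : ∀ x y, 0 ≤ p x y := fun x y =>
    mul_nonneg measureReal_nonneg (le_min (by positivity) (by positivity))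
  -- diagonal
  have hdiag : ∑ x, p x x ≤ Qt t * k := by
    refine le_trans (le_of_eq ?_) (mul_le_mul_of_nonneg_left hm hQ.le)
    rw [Finset.mul_sum]
    refine Finset.sum_congr rfl fun x _ => ?_
    simp only [p]
    rw [Set.inter_self, min_self]
    by_cases hx : v x = 0
    · rw [hx]; simp
    · rw [Gs_self _ hx]
  -- edges
  have hedge : R * (Qt t * (k / 2)) ≤ ∑ x, ∑ y, P x y * p x y := by
    have h2 : R * (Qt t * (k / 2)) ≤ R * Qt t * ∑ x, ∑ y, P x y *
        (if (1 - 2 * ε) * ((‖v x‖ ^ 2 + ‖v y‖ ^ 2) / 2) ≤ ⟪v x, v y⟫ then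
        ‖v x‖ ^ 2 + ‖v y‖ ^ 2 else 0) := by
      have := mul_le_mul_of_nonneg_left hW (show 0 ≤ R * Qt t by positivity)
      linarith
    refine h2.trans ?_
    rw [Finset.mul_sum]
    refine Finset.sum_le_sum fun x _ => ?_
    rw [Finset.mul_sum]
    refine Finset.sum_le_sum fun y _ => ?_
    rw [← mul_assoc, mul_comm (R * Qt t), mul_assoc]
    apply mul_le_mul_of_nonneg_left _ (hP x y)
    split_ifs with h
    · by_cases hx : v x = 0
      · rw [hx] at h ⊢
        rw [inner_zero_left, norm_zero] at h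
        have h3 : ‖v y‖ ^ 2 ≤ 0 := by nlinarith [sq_nonneg ‖v y‖]
        have h4 : ‖v y‖ ^ 2 = 0 := le_antisymm h3 (by positivity)
        rw [h4]; simp
        exact hp0 x y
      · by_cases hy : v y = 0
        · rw [hy] at h ⊢
          rw [inner_zero_right, norm_zero] at h
          have h3 : ‖v x‖ ^ 2 ≤ 0 := by nlinarith [sq_nonneg ‖v x‖]
          have h4 : ‖v x‖ ^ 2 = 0 := le_antisymm h3 (by positivity)
          rw [h4]; simp
          exact hp0 x y
        · obtain ⟨h3, h4⟩ := low ε hε hε8 t ht0 (v x) (v y) hx hy h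
          rw [hexp] at h3
          have h5 : 0 ≤ min (‖v x‖ ^ 2) (‖v y‖ ^ 2) := le_min (by positivity) (by positivity)
          calc R * Qt t * (‖v x‖ ^ 2 + ‖v y‖ ^ 2)
              = (Qt t * (a / 7)) * (9 / 64 * (‖v x‖ ^ 2 + ‖v y‖ ^ 2)) := by rw [hR]; ring
            _ ≤ (Qt t * (a / 7)) * min (‖v x‖ ^ 2) (‖v y‖ ^ 2) :=
                mul_le_mul_of_nonneg_left h4 (by positivity)
            _ ≤ p x y := mul_le_mul_of_nonneg_right h3 h5
    · rw [mul_zero]; exact hp0 x y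
  -- all pairs
  have hall : ∑ x, ∑ y, p x y ≤ 28 * k ^ 2 * Qt t := by
    have h1 : ∀ x y, p x y ≤ Qt t * (4 * ⟪v x, v y⟫ + 24 / K * ‖v y‖ ^ 2) := by
      intro x y
      have hi := hpos' x y
      by_cases hx : v x = 0
      · simp only [p]
        rw [hx, norm_zero]
        have h2 : min ((0 : ℝ) ^ 2) (‖v y‖ ^ 2) = 0 := by
          rw [min_eq_left]
          · norm_num
          · rw [zero_pow two_ne_zero]; exact sq_nonneg _
        rw [h2, mul_zero, inner_zero_left]
        positivity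
      · by_cases hy : v y = 0
        · simp only [p]
          rw [hy, norm_zero]
          have h2 : min (‖v x‖ ^ 2) ((0 : ℝ) ^ 2) = 0 := by
            rw [min_eq_right]
            · norm_num
            · rw [zero_pow two_ne_zero]; exact sq_nonneg _
          rw [h2, mul_zero, inner_zero_right]
          positivity
        · have hn : 0 < ‖v x‖ := norm_pos_iff.2 hx
          have hm : 0 < ‖v y‖ := norm_pos_iff.2 hy
          have h2 := up' K hK2 (v x) (v y) hx hy hi
          rw [← ht] at h2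
          have h5 : 0 ≤ min (‖v x‖ ^ 2) (‖v y‖ ^ 2) := le_min (by positivity) (by positivity)
          have h6 : min (‖v x‖ ^ 2) (‖v y‖ ^ 2) ≤ ‖v y‖ ^ 2 := min_le_right _ _
          have h7 : min (‖v x‖ ^ 2) (‖v y‖ ^ 2) ≤ ‖v x‖ * ‖v y‖ := by
            rcases le_total ‖v x‖ ‖v y‖ with h | h
            · exact (min_le_left _ _).trans (by nlinarith)
            · exact (min_le_right _ _).trans (by nlinarith)
          have h8 : ⟪v x, v y⟫ / (‖v x‖ * ‖v y‖) * min (‖v x‖ ^ 2) (‖v y‖ ^ 2) ≤ ⟪v x, v y⟫ := by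
            calc ⟪v x, v y⟫ / (‖v x‖ * ‖v y‖) * min (‖v x‖ ^ 2) (‖v y‖ ^ 2)
                ≤ ⟪v x, v y⟫ / (‖v x‖ * ‖v y‖) * (‖v x‖ * ‖v y‖) :=
                  mul_le_mul_of_nonneg_left h7 (by positivity)
              _ = ⟪v x, v y⟫ := by field_simp
          calc p x y ≤ (Qt t * (4 * (⟪v x, v y⟫ / (‖v x‖ * ‖v y‖)) + 24 / K)) *
                min (‖v x‖ ^ 2) (‖v y‖ ^ 2) := mul_le_mul_of_nonneg_right h2 h5
            _ = Qt t * (4 * (⟪v x, v y⟫ / (‖v x‖ * ‖v y‖) * min (‖v x‖ ^ 2) (‖v y‖ ^ 2)) +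
                24 / K * min (‖v x‖ ^ 2) (‖v y‖ ^ 2)) := by ring
            _ ≤ Qt t * (4 * ⟪v x, v y⟫ + 24 / K * ‖v y‖ ^ 2) := by
                apply mul_le_mul_of_nonneg_left _ hQ.le
                apply add_le_add
                · exact mul_le_mul_of_nonneg_left h8 (by norm_num)
                · exact mul_le_mul_of_nonneg_left h6 (by positivity)
    have hm' : Fintype.card V * (24 / K * k) = 24 * k ^ 2 := by
      rw [← hkK]; field_simp
    calc ∑ x, ∑ y, p x y ≤ ∑ x, ∑ y, Qt t * (4 * ⟪v x, v y⟫ + 24 / K * ‖v y‖ ^ 2) :=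
          Finset.sum_le_sum fun x _ => Finset.sum_le_sum fun y _ => h1 x y
      _ = Qt t * ∑ x, (4 * ∑ y, ⟪v x, v y⟫ + 24 / K * ∑ y, ‖v y‖ ^ 2) := by
          rw [Finset.mul_sum]
          refine Finset.sum_congr rfl fun x _ => ?_
          rw [← Finset.mul_sum, Finset.sum_add_distrib, ← Finset.mul_sum, ← Finset.mul_sum]
      _ ≤ Qt t * ∑ x, (4 * (k * ‖v x‖ ^ 2) + 24 / K * k) := by
          apply mul_le_mul_of_nonneg_left _ hQ.le
          refine Finset.sum_le_sum fun x _ => ?_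
          have := hspr x
          have h2 : 24 / K * ∑ y, ‖v y‖ ^ 2 ≤ 24 / K * k :=
            mul_le_mul_of_nonneg_left hm (by positivity)
          linarith
      _ = Qt t * (4 * (k * ∑ x, ‖v x‖ ^ 2) + 24 * k ^ 2) := by
          rw [Finset.sum_add_distrib, ← Finset.mul_sum, ← Finset.mul_sum, Finset.sum_const,
            Finset.card_univ, nsmul_eq_mul, hm']
      _ ≤ Qt t * (4 * (k * k) + 24 * k ^ 2) := by
          apply mul_le_mul_of_nonneg_left _ hQ.le
          have := mul_le_mul_of_nonneg_left hm hk0.le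
          linarith
      _ = _ := by ring
  -- the integral is positive
  have hint := Zf_integral v hv t P (R / 8) l
  have hpos : 0 < ∫ ω, Zf v t P (R / 8) l ω ∂(prb E) := by
    rw [hint]
    have h1 : R * (Qt t * (k / 2)) - R / 8 * (Qt t * k) - l * (28 * k ^ 2 * Qt t) ≤
        ∑ x, ∑ y, P x y * p x y - R / 8 * ∑ x, p x x - l * ∑ x, ∑ y, p x y := by
      have h2 := mul_le_mul_of_nonneg_left hall hl0.le
      have h3 := mul_le_mul_of_nonneg_left hdiag (show 0 ≤ R / 8 by positivity)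
      linarith
    refine lt_of_lt_of_le ?_ h1
    have h3 : l * (28 * k ^ 2 * Qt t) = R * k * Qt t / 8 := by
      rw [hl]; field_simp; ring
    rw [h3]
    have : 0 < R * k * Qt t := by positivity
    linarith
  have hae : ∀ᵐ ω ∂(prb E), 0 ≤ ω.2 := by
    rw [ae_iff]
    have h1 : {ω : E × ℝ | ¬ 0 ≤ ω.2} = Set.univ ×ˢ Set.Iio (0 : ℝ) := by
      ext ω; simp
    rw [h1]
    unfold prb
    rw [Measure.prod_prod, Measure.restrict_apply measurableSet_Iio]
    have h2 : Set.Iio (0 : ℝ) ∩ Set.Ico (0 : ℝ) 1 = ∅ := by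
      ext s
      simp only [Set.mem_inter_iff, Set.mem_Iio, Set.mem_Ico, Set.mem_empty_iff_false, iff_false]
      rintro ⟨h1, h2, _⟩
      linarith
    rw [h2]; simp
  have hex : ∃ ω : E × ℝ, 0 ≤ ω.2 ∧ 0 < Zf v t P (R / 8) l ω := by
    by_contra hcon
    push Not at hcon
    have h1 : ∀ᵐ ω ∂(prb E), Zf v t P (R / 8) l ω ≤ 0 := by
      filter_upwards [hae] with ω hω
      exact hcon ω hω
    exact absurd (integral_nonpos_of_ae h1) (not_le.2 hpos)
  obtain ⟨ω, hω0, hω⟩ := hex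
  rw [Zf_eq] at hω
  set B := rset v t ω with hB
  have hBne : B.Nonempty := by
    rw [Finset.nonempty_iff_ne_empty]
    intro h
    rw [h] at hω
    simp at hω
  have hBc : (0 : ℝ) < B.card := by exact_mod_cast hBne.card_pos
  have hstay : ∑ x ∈ B, ∑ y ∈ B, P x y ≤ B.card := by
    calc ∑ x ∈ B, ∑ y ∈ B, P x y ≤ ∑ x ∈ B, ∑ y, P x y :=
          Finset.sum_le_sum fun x _ => Finset.sum_le_sum_of_subset_of_nonneg (Finset.subset_univ B)
            fun y _ _ => hP x y
      _ = B.card := by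
          rw [Finset.sum_congr rfl fun x _ => hrow x]; simp
  refine ⟨B, hBne, ?_, ?_, ?_⟩
  · intro x hx h0
    have h1 : ω ∈ Ev (v x) t := by
      have := hx
      rw [hB] at this
      unfold rset at this
      simpa using this
    have h2 : ω.2 < ‖v x‖ ^ 2 := h1.2
    rw [h0, norm_zero] at h2
    norm_num at h2
    linarith
  · have h1 : l * (B.card : ℝ) ^ 2 < B.card := by
      have : 0 ≤ R / 8 * B.card := by positivity
      linarith
    have h2 : l * B.card < 1 := by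
      have : l * (B.card : ℝ) * B.card < 1 * B.card := by nlinarith
      exact lt_of_mul_lt_mul_right this hBc.le
    have h3 : Real.exp (32 / 5 * ε * Real.log K) = a⁻¹ := by
      rw [ha, Real.exp_neg, inv_inv]
    rw [h3]
    have h4 : (B.card : ℝ) < 1 / l := by rw [lt_div_iff₀ hl0]; linarith
    refine h4.le.trans ?_
    rw [hl, hR]
    have h5 : 1 / (9 / 448 * a / (224 * k)) = (224 * 448 / 9) * (a⁻¹ * k) := by
      field_simp
    rw [h5]
    have h6 : 0 ≤ a⁻¹ * k := by positivity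
    nlinarith
  · have h1 : R / 8 * B.card ≤ ∑ x ∈ B, ∑ y ∈ B, P x y := by
      have : 0 ≤ l * (B.card : ℝ) ^ 2 := by positivity
      linarith
    refine le_trans ?_ h1
    apply mul_le_mul_of_nonneg_right _ hBc.le
    rw [hR]; linarith

end

end Pool.Agent.L7h51.SD
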